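import Mathlib

/-!
# Project SY (helper247): Smyth's conjecture over number fields (MP_ed3ef1_nt, frozen statement S18875)

Main idea.  A tuple `a` is a Smyth tuple iff there are permutation matrices `P_i` with
`det (∑ a_i P_i) = 0`, i.e. iff there is a finitely supported nonzero measure on the lattice of
relations `{x : ∑ a_i x_i = 0}` with equal marginals.  Such a measure is made from a discrete Gaussian
whose marginals are equal up to `exp (-c/s)`, after pushing the error inwards (strong archimedean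
inequality) to a fixed finite core where finite-dimensional linear algebra repairs it.

Every `S_XXX` below is one lemma job; the docstring contains the complete proof.
-/

set_option autoImplicit false
open scoped NumberField
open NumberField

namespace Q247.SY

/-! ## Definitions -/

/-- The relation vector `h_{jk} = a_k e_j - a_j e_k` (it satisfies `∑ i, a i * h i = 0`). -/
def hv {R : Type} [CommRing R] {n : ℕ} (a : Fin n → R) (j k : Fin n) : Fin n → R :=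
  fun i => (if i = j then a k else 0) - (if i = k then a j else 0)

/-- `x` is an `R`-linear combination of the vectors `h_{jk}`. -/
def IsSyz {R : Type} [CommRing R] {n : ℕ} (a : Fin n → R) (x : Fin n → R) : Prop :=
  ∃ s : Fin n → Fin n → R, ∀ i, x i = ∑ j, ∑ k, s j k * hv a j k i

/-- There are permutations `π_i` and a nonzero vector `v` with `∑ i, a i * v (π i j) = 0` for all `j`. -/
def PermSol {R : Type} [CommRing R] {n : ℕ} (a : Fin n → R) : Prop :=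
  ∃ (N : ℕ) (π : Fin n → Equiv.Perm (Fin N)) (v : Fin N → R),
    v ≠ 0 ∧ ∀ j, ∑ i, a i * v (π i j) = 0

section nf
variable {K : Type} [Field K] [NumberField K]

/-- Strong archimedean condition. -/
def Strong {n : ℕ} (a : Fin n → 𝓞 K) : Prop :=
  ∀ v : InfinitePlace K, ∀ i : Fin n, v (a i : K) < ∑ j ∈ Finset.univ.erase i, v (a j : K)

/-- Nonarchimedean condition. -/
def NonArch {n : ℕ} (a : Fin n → 𝓞 K) : Prop :=
  ∀ v : IsDedekindDomain.HeightOneSpectrum (𝓞 K), ∀ i : Fin n,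
    ∃ j : Fin n, j ≠ i ∧ v.valuation K (a i : K) ≤ v.valuation K (a j : K)

/-- Ideal form of the nonarchimedean condition. -/
def LocGen {n : ℕ} (a : Fin n → 𝓞 K) : Prop :=
  ∀ i, a i ∈ Ideal.span (a '' {j | j ≠ i})

/-- `a` is a Smyth tuple over `K`. -/
def Conj {n : ℕ} (a : Fin n → 𝓞 K) : Prop :=
  ∃ α : Fin n → AlgebraicClosure K,
    (∀ i, α i ≠ 0) ∧ (∀ i j, minpoly K (α i) = minpoly K (α j)) ∧
    ∑ i, algebraMap K (AlgebraicClosure K) (a i : K) * α i = 0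

/-- `a` satisfies a relation with roots of unity. -/
def Rou {n : ℕ} (a : Fin n → 𝓞 K) : Prop :=
  ∃ ω : Fin n → AlgebraicClosure K,
    (∀ i, ∃ m : ℕ, 0 < m ∧ ω i ^ m = 1) ∧
    ∑ i, algebraMap K (AlgebraicClosure K) (a i : K) * ω i = 0

/-- The size of an algebraic integer: the sum of its absolute values. -/
noncomputable def ht (x : 𝓞 K) : ℝ := ∑ w : InfinitePlace K, w (x : K)

/-- The trace form `∑_w |t|_w^2`. -/
noncomputable def NF (t : 𝓞 K) : ℝ := ∑ w : InfinitePlace K, (w (t : K)) ^ 2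

/-- The quadratic form `∑_l ∑_w |g_l|_w^2 / τ_{l,w}`. -/
noncomputable def QF {F : Type} [Fintype F] (τ : F → InfinitePlace K → ℝ) (g : F → 𝓞 K) : ℝ :=
  ∑ l, ∑ w : InfinitePlace K, (w (g l : K)) ^ 2 / τ l w

/-- The tuple attached to the parameter `g`: `X_i = ∑_l ζ_{l,i} g_l`. -/
noncomputable def XX {F : Type} [Fintype F] {n : ℕ} (ζ : F → Fin n → 𝓞 K) (g : F → 𝓞 K)
    (i : Fin n) : 𝓞 K := ∑ l, ζ l i * g l

end nf

/-- The `ℓ¹` distance of two finitely supported functions. -/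
noncomputable def TV {T : Type} (p q : T →₀ ℝ) : ℝ := (p - q).sum (fun _ x => |x|)

/-! ## Field theory -/

/-- **JOB SN.** For every number field `K` there are arbitrarily long families of elements of the
algebraic closure on which all even permutations are induced by `K`-automorphisms.

Proof.  Take `m ≥ max N 5` with `m > [K : ℚ]` (and `m ≠ 1`) and `f = X^m - X - 1`.  By Mathlib
(`Mathlib/RingTheory/Polynomial/Selmer.lean` and `Mathlib/NumberTheory/...`: search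
`X_pow_sub_X_sub_one_gal`) `f` has Galois group `S_m` over `ℚ`; in particular `f` is separable with `m`
roots `r : Fin m → AlgebraicClosure K` and the subfield `L₀` generated by them over `ℚ` has degree `m!`
over `ℚ`.  The subfield `L = K(r)` has degree over `K` at least `m! / [K : ℚ]`
(`[L : K] [K : ℚ] = [L : ℚ] ≥ [L₀ : ℚ] = m!`), so the image `H` of `Gal(L/K)` in `Perm (Fin m)` (faithful)
has index `≤ [K : ℚ] < m`.  A subgroup `H` of `S_m`, `m ≥ 5`, of index `q < m` contains `A_m`: the normal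
core of `H` has index dividing `q!`, `q! < m!/2`, so the core meets `A_m` in a nontrivial normal subgroup
of `A_m` (or: the kernel of the action on the `q` cosets), which is `A_m` by simplicity
(`alternatingGroup.isSimpleGroup`, `Mathlib/GroupTheory/SpecificGroups/Alternating/Simple.lean`).
Automorphisms of `L/K` extend to the algebraic closure (`AlgEquiv.liftNormal`). -/
def S_SN : Prop :=
  ∀ (K : Type) [Field K] [NumberField K] (N : ℕ), ∃ m : ℕ, N ≤ m ∧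
    ∃ r : Fin m → AlgebraicClosure K, Function.Injective r ∧
      ∀ σ : Equiv.Perm (Fin m), σ ∈ alternatingGroup (Fin m) →
        ∃ φ : AlgebraicClosure K ≃ₐ[K] AlgebraicClosure K, ∀ j, φ (r j) = r (σ j)

/-- **JOB CONJ.** Permutation solutions give conjugates.

Proof.  Given `π_i ∈ Perm (Fin N)`, `v : Fin N → 𝓞 K`, `v ≠ 0`.  Take `m ≥ N + 4` and `r` from `S_SN`.
Extend `v` by `0` and each `π_i` to a permutation `π'_i` of `Fin m` which is the identity on the new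
points, or a transposition of two of them if `π_i` is odd, so `π'_i` is even and still
`∑ i, a i * v (π'_i j) = 0` for all `j : Fin m`.  Put `γ = ∑ j, v j * r j` and
`α i = ∑ j, v j * r ((π'_i)⁻¹ j) = φ_i γ` with `φ_i` the automorphism for `(π'_i)⁻¹`.
Then `minpoly K (α i) = minpoly K γ`, and `∑ i, a i * α i = ∑ j (∑ i, a i * v (π'_i j)) * r j = 0`.
Finally `γ ≠ 0`: choose `j₀` with `v j₀ ≠ 0` and two new points `p ≠ q`; the three-cycle
`σ = (j₀ p q)` (`j₀ ↦ p`) is even, and if `γ = 0` then `0 = φ γ - γ = v j₀ * (r p - r j₀)`, impossible. -/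
def S_CONJ : Prop :=
  S_SN → ∀ (K : Type) [Field K] [NumberField K] (n : ℕ) (a : Fin n → 𝓞 K), PermSol a → Conj a

/-- **JOB NECF.** Necessity at the finite places.

Proof (no extension of valuations).  Suppose that for some `v`, `i` all `j ≠ i` have `v(a j) < v(a i)`
(so `a i ≠ 0`, because `2 ≤ n`).  Put `b_j = - a_j / a_i ∈ K`, `v(b_j) < 1`.  Let `Z` be the finite set of all
`β ∈ AlgebraicClosure K` with `minpoly K β = minpoly K (α i)`.  For `β ∈ Z` choose a `K`-automorphism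
`φ_β` with `φ_β (α i) = β`; then `β = ∑_{j ≠ i} b_j φ_β(α j)` and all `φ_β(α j) ∈ Z`.  So the vector
`z = (β)_{β ∈ Z}` satisfies `M z = z` with a square matrix `M` over `K` whose entries are sums of some of
the `b_j`, hence have valuation `< 1`.  Then `det (1 - M)` is `1` plus an element of valuation `< 1`
(the determinant of `1 - M` modulo the maximal ideal of the valuation ring of `v` is `det 1 = 1`), so it
is not zero, and `z = 0`; but `α i ≠ 0`. -/
def S_NECF : Prop :=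
  ∀ (K : Type) [Field K] [NumberField K] (n : ℕ) (a : Fin n → 𝓞 K), 2 ≤ n → Conj a → NonArch a

/-- **JOB NECA.** Necessity at the infinite places (with the equality case).

Proof.  Let `w` be an infinite place, `ψ : AlgebraicClosure K →+* ℂ` an extension of `w.embedding`
(`IsAlgClosed.lift`), `Z` the finite set of conjugates of `α i` (all `i` have the same), `Zmax` the
subset where `‖ψ β‖` is maximal `= R > 0`.  For `β ∈ Zmax` and an index `i` choose a `K`-automorphism `φ`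
with `φ (α i) = β`.  Then `a_i β = - ∑_{j≠i} a_j φ(α j)`, so
`w(a_i) R ≤ ∑_{j≠i} w(a_j) ‖ψ φ α_j‖ ≤ R ∑_{j≠i} w(a_j)`.  If `Strong a` fails, then for some `w`, `i`
there is equality.  If `w(a_i) = 0` then all `a_j = 0` and `Rou a` holds with `ω = 1`.  Otherwise, for all
`j ≠ i` with `a_j ≠ 0`, equality in the triangle inequality gives
`ψ(φ α_j) = u_j ψ(β)` with `u_j = -(w(a_j)/w(a_i)) ψ(a_i)/ψ(a_j)`, a number of modulus one that
does not depend on `β ∈ Zmax`.  So multiplication by `u_j` maps the finite set `ψ(Zmax)` of nonzero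
numbers to itself, injectively; hence `u_j` is a root of unity.  For one fixed `β ∈ Zmax` put
`ω_j = φ(α_j)/β` if `a_j ≠ 0` (in particular `ω_i = 1`) and `ω_j = 1` otherwise: `ψ(ω_j) = u_j`, so
`ω_j` is a root of unity, and `∑ a_j ω_j = 0`. -/
def S_NECA : Prop :=
  ∀ (K : Type) [Field K] [NumberField K] (n : ℕ) (a : Fin n → 𝓞 K), Conj a → (Strong a ∨ Rou a)

/-- **JOB ROU.** Relations between roots of unity give Smyth tuples.

Proof.  Let `M ≥ 1` be a common exponent (`ω_i ^ M = 1`).  Choose a maximal ideal `P ≠ 0` of `𝓞 K` and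
`c ∈ P`, `c ∉ P^2`.  `X^M - c` is Eisenstein at `P`, hence irreducible over `𝓞 K` and over `K`
(Gauss, `Polynomial.Monic.irreducible_iff_irreducible_map_fraction_map`).  Take `β` in the algebraic
closure with `β^M = c` and `α_i = ω_i β`: nonzero, a root of the monic irreducible `X^M - c`, so
`minpoly K (α i) = X^M - c` for all `i`. -/
def S_ROU : Prop :=
  ∀ (K : Type) [Field K] [NumberField K] (n : ℕ) (a : Fin n → 𝓞 K), Rou a → Conj a

/-- **JOB LOC.** The valuation condition gives ideal membership.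

Proof.  Let `I = Ideal.span (a '' {j | j ≠ i})`.  If `a i ∉ I`, the ideal `{s | s * a i ∈ I}` is proper,
contained in a maximal ideal `P`; `P ≠ 0` (if `a i ≠ 0`: `𝓞 K` is not a field, and for `P = ⊥` use any
nonzero prime; or note that `a j ∈ {s | s a i ∈ I}` for `j ≠ i`, and some `a j ≠ 0`).  At `P` there is
`j ≠ i` with `v(a i) ≤ v(a j)`, so (if `a i ≠ 0`, then `a j ≠ 0`) `a_i / a_j` is integral at `P`, i.e.
`= b/s` with `b, s ∈ 𝓞 K`, `s ∉ P`
(`IsDedekindDomain.HeightOneSpectrum.valuation` `≤ 1` iff in the localization at `P`; or use the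
factorization of the ideals), so `s * a i = b * a j ∈ I` with `s ∉ P`, a contradiction. -/
def S_LOC : Prop :=
  ∀ (K : Type) [Field K] [NumberField K] (n : ℕ) (a : Fin n → 𝓞 K), NonArch a → LocGen a

/-! ## From measures to permutations -/

/-- **JOB RAT.** A finitely supported real measure on relations with equal marginals, not concentrated
at zero, gives a permutation solution.

Proof.  (1) Rational weights.  Let `S = μ.support` (all weights `> 0` there).  The real numbers `μ g`,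
`g ∈ S`, span a finite dimensional `ℚ`-subspace of `ℝ`; let `β_1..β_r` be a `ℚ`-basis, and
`μ g = ∑_k q_{g,k} β_k`.  The equations `∑_{g : X g i = t} μ g = ∑_{g : X g j = t} μ g` have coefficients
in `{-1,0,1}`, so by `ℚ`-independence each `(q_{g,k})_g` satisfies them.  Replace `β_k` by close rational
numbers: weights `μ' g = ∑_k q_{g,k} β'_k ∈ ℚ` satisfy the equations and are `> 0` on `S`.
(2) Multiply by a common denominator: `μ'' : S → ℕ` positive.
(3) Let `J = Σ g : S, Fin (μ'' g)`, `x_i : J → R`, `x_i (g, _) = X g i`.  For all `t` the fibres of `x_i`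
and `x_{i₀}` over `t` have the same cardinality (`i₀` any fixed index; `n = 0` is impossible because of
the last hypothesis), so there are `π_i ∈ Perm J` with `x_{i₀} ∘ π_i = x_i`; put `v = x_{i₀}`.  Then
`∑ i, a i * v (π_i j) = ∑ i, a i * X g i = 0`.  `v ≠ 0`: some `x_i` is not zero, `v` has the same values.
Transport `J` to `Fin N`. -/
def S_RAT : Prop :=
  ∀ (R : Type) [CommRing R] (n : ℕ) (a : Fin n → R) (G : Type) (X : G → Fin n → R),
    (∀ g, ∑ i, a i * X g i = 0) →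
    ∀ μ : G →₀ ℝ, (∀ g, 0 ≤ μ g) →
      (∀ i j, μ.mapDomain (fun g => X g i) = μ.mapDomain (fun g => X g j)) →
      (∃ g i, 0 < μ g ∧ X g i ≠ 0) → PermSol a

/-- **JOB ABS.** The combinatorial core: push the error of the approximate solution inwards, then repair
it in a finite core.

Notation: `Φ c = (mapDomain (X · i) c)_i ∈ D = (Fin n → T →₀ ℝ)`; `u ~ u'` in `D` iff `u - u'` is diagonal
(there is `ν : T →₀ ℝ` with `u i = u' i + ν` for all `i`).  `mass u = ∑_i ∑_t |u_i(t)|`.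

(A) Claim: for all `k`, all `i`, `t` with `P t`, `ρ^k h(t) ≤ C₀` there are `τ : G →₀ ℝ`, `τ ≥ 0` and
`u ∈ D`, `u ≥ 0`, supported in the core `{P t ∧ h t ≤ C₀}`, with `u ~ δ_{(i,t)} + Φ τ` and
`mass u ≤ n^(2k)`.  (`δ_{(i,t)} = Pi.single i (single t 1)`.)  Induction on `k`: if `h t ≤ C₀` take
`τ = 0`, `u = δ_{(i,t)}`, mass `1 ≤ n^(2k)` (as `n ≥ 1`).  Otherwise `k ≥ 1`; for every `j ≠ i` take
`g_j` with `X g_j j = t`, `h (X g_j l) ≤ ρ h t` for `l ≠ j`.
Then `δ_{(i,t)} + ∑_{j≠i} Φ(single g_j 1) = (all (j,t), diagonal) + ∑_{j≠i} ∑_{l≠j} δ_{(l, X g_j l)}`, and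
`ρ^(k-1) h (X g_j l) ≤ ρ^k h t ≤ C₀`, so the induction hypothesis applies to the at most `n^2` terms.
(B) Let `U` be the real vector space of all `u ∈ D` supported in the core (finite dimensional) with
`u ~ Φ c` for some `c : G →₀ ℝ`.  Choose a linear map `L : U → (G →₀ ℝ)` with `u ~ Φ (L u)` (choose lifts
of a basis).  There are a finite `S ⊆ G` with `supp (L u) ⊆ S` for all `u ∈ U` and `N₁ > 0` with
`|L u g| ≤ N₁ mass u`.
(C) Apply the last hypothesis with `insert g₀ S` and small `ε`: get `k`, `μ`.  Put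
`e_i(t) = m_i(t) - min_j m_j(t) ≥ 0` where `m_i = mapDomain (X · i) μ`: `e ~ Φ μ`,
`mass e ≤ ∑_i ∑_j TV(m_i, m_j)`, supported on `t` with `ρ^k h t ≤ C₀`.  Apply (A) to every term of `e`:
`u = ∑ e_i(t) u_{(i,t)}`, `τ = ∑ e_i(t) τ_{(i,t)}`: `u ~ e + Φ τ ~ Φ (μ + τ)`, `u ∈ U`,
`mass u ≤ n^(2k) mass e ≤ n^2 ε ≤ 1/(4 N₁)`.  The measure `μ + τ - L u` has `Φ ~ 0`, i.e. equal marginals,
is `≥ 1/2 - 1/4` on `insert g₀ S` and `≥ 0` elsewhere. (`n = 0`: any `μ = single g₀ 1` works.) -/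
def S_ABS : Prop :=
  ∀ (G T : Type) (n : ℕ) (X : G → Fin n → T) (P : T → Prop) (h : T → ℝ) (ρ C₀ : ℝ),
    0 < ρ → ρ < 1 → 0 < C₀ →
    (∀ g i, P (X g i)) →
    {t | P t ∧ h t ≤ C₀}.Finite →
    (∀ i t, P t → C₀ < h t → ∃ g, X g i = t ∧ ∀ j, j ≠ i → h (X g j) ≤ ρ * h t) →
    (∀ (S : Finset G) (ε : ℝ), 0 < ε → ∃ (k : ℕ) (μ : G →₀ ℝ), (∀ g, 0 ≤ μ g) ∧
      (∀ g ∈ S, 1 / 2 ≤ μ g) ∧ (∀ g ∈ μ.support, ∀ i, ρ ^ k * h (X g i) ≤ C₀) ∧
      (∀ i j, (n : ℝ) ^ (2 * k) *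
        TV (μ.mapDomain (fun g => X g i)) (μ.mapDomain (fun g => X g j)) ≤ ε)) →
    ∀ g₀ : G, ∃ μ : G →₀ ℝ, (∀ g, 0 ≤ μ g) ∧ 0 < μ g₀ ∧
      ∀ i j, μ.mapDomain (fun g => X g i) = μ.mapDomain (fun g => X g j)

/-! ## Geometry of numbers -/

/-- **JOB ROUND.** Every element of the mixed space is at bounded distance from an algebraic integer.

Proof.  Write `u = ∑ r_k b_k` in the lattice basis (`mixedEmbedding.latticeBasis`, whose members are the
images of an integral basis), `y = ∑ ⌊r_k⌋ b_k`; `normAtPlace w` is subadditive and homogeneous, so the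
distance is at most `∑_k normAtPlace w (b_k)`, a finite maximum over `w`. -/
def S_ROUND : Prop :=
  ∀ (K : Type) [Field K] [NumberField K], ∃ C : ℝ, 0 < C ∧ ∀ u : mixedEmbedding.mixedSpace K,
    ∃ y : 𝓞 K, ∀ w : InfinitePlace K,
      mixedEmbedding.normAtPlace w (mixedEmbedding K (y : K) - u) ≤ C

/-- **JOB PUSH.** Relations with one prescribed coordinate `t` and all others smaller by a factor.

Proof.  Fix `i`.  By `Strong` there is `r ≠ i` with `a r ≠ 0`.  For every place `w` let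
`κ_w = w(a_i) / ∑_{j≠i} w(a_j) < 1`.  Define `z_j ∈ mixedSpace K` (`j ≠ i`) by its components
`-κ_w (a_i/|a_i|) conj(a_j)/|a_j|` (`0` if `a_i = 0` or `a_j = 0`), so `∑_{j≠i} a_j z_j = - a_i` and
`|z_j|_w ≤ κ_w ≤ ρ := max(1/2, max κ_w) < 1`.  Let `t ∈ span (range a) = span {a_j : j ≠ i}` (by `LocGen`),
`t = ∑_{j≠i} a_j s_j`.  For `j ∉ {i,r}` let `y_j` be the rounding (`S_ROUND`) of `(z_j t + a_i s_j)/a_r`,
and put `x = ∑_{j≠i} s_j (a_j e_i - a_i e_j) + ∑_{j≠i,r} y_j (a_r e_j - a_j e_r)`, which is `IsSyz` and has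
`x_i = t`, `x_j = a_r y_j - a_i s_j`, so `|x_j - z_j t|_w ≤ |a_r|_w C` for `j ∉ {i,r}`; from
`∑ a x = 0` and `a_i t + ∑_{j≠i} a_j z_j t = 0` one gets
`a_r (x_r - z_r t) = - ∑_{j≠i,r} a_j (x_j - z_j t)`, so `|x_r - z_r t|_w ≤ ∑_j |a_j|_w C`.  Hence
`w(x_j) ≤ ρ w(t) + C'` for all `j ≠ i`, and sum over `w`.  Finitely many `i`: take the maximum of the
constants. (Note `w (x : K) = normAtPlace w (mixedEmbedding K x)`.) -/
def S_PUSH : Prop :=
  S_ROUND → ∀ (K : Type) [Field K] [NumberField K] (n : ℕ) (a : Fin n → 𝓞 K),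
    Strong a → LocGen a → ∃ ρ C : ℝ, 0 < ρ ∧ ρ < 1 ∧ 0 < C ∧
      ∀ i, ∀ t ∈ Ideal.span (Set.range a), ∃ x : Fin n → 𝓞 K, IsSyz a x ∧ x i = t ∧
        ∀ j, j ≠ i → ht (x j) ≤ ρ * ht t + C

/-- **JOB POLY.** Closed polygons with given side lengths.

Proof.  Claim: for a finset `s`, `b ≥ 0`, `L ≥ 0` with `L ≤ ∑_s b` and `b_i ≤ L + ∑_{s \ i} b_j` for
`i ∈ s` there are unit `u_i` with `‖∑_{i∈s} b_i u_i‖ = L`.  Induction, insert `i₀` with length `b₀`: put
`ℓ = min (L + b₀) (∑_s b)`.  Then `|L - b₀| ≤ ℓ ≤ L + b₀`, `ℓ ≤ ∑_s b` and `b_i ≤ ℓ + ∑_{s \ i} b_j` for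
`i ∈ s`, so by induction there is a configuration on `s` with modulus `ℓ`; the function
`θ ↦ ‖z + b₀ e^{iθ}‖` (`‖z‖ = ℓ`) is continuous and takes the values `ℓ + b₀ ≥ L` and `|ℓ - b₀| ≤ L`, so it
takes the value `L` (intermediate value theorem).  Take `L = 0`. -/
def S_POLY : Prop :=
  ∀ (n : ℕ) (b : Fin n → ℝ), (∀ i, 0 ≤ b i) →
    (∀ i, b i ≤ ∑ j ∈ Finset.univ.erase i, b j) →
    ∃ u : Fin n → ℂ, (∀ i, ‖u i‖ = 1) ∧ ∑ i, (b i : ℂ) * u i = 0

/-- **JOB PERT.** Perturbation of the system `∑_k c_k (1 + δ [i = k]) = r_i`.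

Proof.  The matrix `A₀ = J + δ I` is invertible, `A₀⁻¹ 1 = (1/(n+δ)) 1 > 0`.  The map
`(A, r) ↦ A⁻¹ r` (`A⁻¹ = (det A)⁻¹ adj A`) is continuous at `(A₀, 1)`; so all solutions near are
positive.  (For `n = 0` trivial.) -/
def S_PERT : Prop :=
  ∀ (n : ℕ) (δ : ℝ), 0 < δ → ∃ η : ℝ, 0 < η ∧ ∀ A : Fin n → Fin n → ℝ,
    (∀ k i, |A k i - (1 + if i = k then δ else 0)| ≤ η) →
    ∀ r : Fin n → ℝ, (∀ i, |r i - 1| ≤ η) →
      ∃ c : Fin n → ℝ, (∀ k, 0 < c k) ∧ ∀ i, ∑ k, c k * A k i = r i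

/-- **JOB APX.** Real relations are approximated by (multiples of) syzygies.

Proof.  Let `a r ≠ 0`.  For `q ∈ ℕ` let `y_j` (`j ≠ r`) be the rounding of `q z_j / a_r`, and
`x = ∑_{j≠r} y_j (a_r e_j - a_j e_r)`.  Then `x_j = a_r y_j`, `|x_j - q z_j|_w ≤ |a_r|_w C`, and
`a_r (x_r - q z_r) = - ∑_{j≠r} a_j (x_j - q z_j)`, so `|x_r - q z_r|_w ≤ ∑ |a_j|_w C`.  Divide by a large
`q`. -/
def S_APX : Prop :=
  S_ROUND → ∀ (K : Type) [Field K] [NumberField K] (n : ℕ) (a : Fin n → 𝓞 K)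
    (z : Fin n → mixedEmbedding.mixedSpace K), (∃ i, a i ≠ 0) →
    ∑ i, mixedEmbedding K (a i : K) * z i = 0 → ∀ ε : ℝ, 0 < ε →
    ∃ q : ℕ, 0 < q ∧ ∃ x : Fin n → 𝓞 K, IsSyz a x ∧
      ∀ i, ∀ w : InfinitePlace K, |w (x i : K) / q - mixedEmbedding.normAtPlace w (z i)| ≤ ε

/-- **JOB VAR.** A finite family of syzygies with exactly equal variances at all places.

Proof.  By `Strong` (finitely many `w`, `k`) choose `δ > 0` with
`w(a_k) √(1+δ) ≤ ∑_{j≠k} w(a_j)` for all `k`, `w`; let `η` be from `S_PERT n δ`.  Fix `k`; let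
`ρ_i = 1 + δ [i = k]`.  For every `w`, `S_POLY` with the lengths `w(a_i) √ρ_i` gives unit `u_i`; put
`c_i = √ρ_i Re u_i`, `s_i = √ρ_i Im u_i`: `∑ w(a_i) c_i = ∑ w(a_i) s_i = 0`, `c_i² + s_i² = ρ_i`.  With
`e_i = w.embedding(a_i)/w(a_i)` (`1` if `a_i = 0`) let `z^{(k,1)}_i`, `z^{(k,2)}_i ∈ mixedSpace K` be the
elements with components `conj(e_i) c_i` and `conj(e_i) s_i` at `w` (real if `w` is real), so that
`∑ a_i z_i = 0`, `|z^{(k,1)}_i|_w = |c_i|`, `|z^{(k,2)}_i|_w = |s_i|`.  `S_APX` gives syzygies `x^{(k,1)}`,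
`x^{(k,2)}` and `q₁, q₂` with `|(w(x^{(k,1)}_i)/q₁)² + (w(x^{(k,2)}_i)/q₂)² - ρ_i| ≤ η`.  Take
`F = (Fin n × Bool) ⊕ (Fin n × Fin n)`, `ζ (inl (k,·)) = x^{(k,·)}`, `ζ (inr (j,k)) = h_{jk}`,
`τ (inr _) w = ε'` so small that `r_i = 1 - ε' ∑_{j,k} w(h_{jk,i})²` satisfies `|r_i - 1| ≤ η` for all
`w`, `i`, and `τ (inl (k,·)) w = c_k/q_·²` with `c` from `S_PERT` for the matrix
`A_{k,i} = (w(x^{(k,1)}_i)/q₁)² + (w(x^{(k,2)}_i)/q₂)²` and `r` (for each `w` separately). -/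
def S_VAR : Prop :=
  S_ROUND → S_POLY → S_PERT → S_APX → ∀ (K : Type) [Field K] [NumberField K] (n : ℕ)
    (a : Fin n → 𝓞 K), Strong a →
    ∃ (F : Type) (_ : Fintype F) (ζ : F → Fin n → 𝓞 K) (τ : F → InfinitePlace K → ℝ),
      (∀ l, IsSyz a (ζ l)) ∧ (∀ j k, ∃ l, ζ l = hv a j k) ∧ (∀ l w, 0 < τ l w) ∧
      ∀ i, ∀ w : InfinitePlace K, ∑ l, τ l w * (w (ζ l i : K)) ^ 2 = 1

/-! ## Discrete Gaussians -/

/-- **JOB TH1.** One-dimensional theta function, uniformly in the shift.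

Proof.  Poisson summation for Gaussians (`Real.tsum_exp_neg_quadratic` / `Complex.tsum_exp_neg_quadratic`
with `b = - a x`, or `jacobiTheta₂` functional equation): with `a = s b / π`,
`∑_n exp(-π a (n+x)²) = a^{-1/2} ∑_n exp(-π n²/a) exp(2π i n x)`, so the relative error is at most
`2 ∑_{n≥1} exp(-π n/a) ≤ C exp(-π/a)`, `π/a = π²/(s b)`. -/
def S_TH1 : Prop :=
  ∀ b : ℝ, 0 < b → ∃ c C : ℝ, 0 < c ∧ 0 < C ∧ ∀ s : ℝ, 0 < s → s ≤ 1 → ∀ x : ℝ,
    Summable (fun n : ℤ => Real.exp (-s * b * ((n : ℝ) + x) ^ 2)) ∧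
    |∑' n : ℤ, Real.exp (-s * b * ((n : ℝ) + x) ^ 2) - Real.sqrt (Real.pi / (s * b))|
      ≤ C * Real.exp (-c / s) * Real.sqrt (Real.pi / (s * b))

/-- **JOB THM.** Theta functions of linearly independent families, uniformly in the shift.

Proof.  Induction on `m` over all families in the same space.  `m = 0`: `v = 0`, the sum is `1`, `κ = 1`.
Step: `γ : Fin (m+1) → V`; let `p` be the orthogonal projection to the complement of `γ_0`,
`p x = x - (⟪γ_0,x⟫/‖γ_0‖²) γ_0`.  The family `p γ_{k+1}` (`k < m`) is linearly independent and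
`p v ∈ span (p γ_{k+1})`.  For `n' : Fin m → ℤ` put `w = ∑ n'_k γ_{k+1} + v`, `x = ⟪γ_0,w⟫/‖γ_0‖²`:
`‖n_0 γ_0 + w‖² = ‖γ_0‖² (n_0 + x)² + ‖p w‖²`, so by `S_TH1` (`b = ‖γ_0‖²`) the sum over `n_0` is
`exp(-s ‖p w‖²) √(π/(s b)) (1 + O(C exp(-c/s)))`, and `‖p w‖² = ‖∑ n'_k p γ_{k+1} + p v‖²`: induction.
Summability over `Fin (m+1) → ℤ ≃ ℤ × (Fin m → ℤ)` from the iterated (nonnegative) sums. -/
def S_THM : Prop :=
  S_TH1 → ∀ (V : Type) [NormedAddCommGroup V] [InnerProductSpace ℝ V] (m : ℕ) (γ : Fin m → V),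
    LinearIndependent ℝ γ → ∃ κ c C : ℝ, 0 < κ ∧ 0 < c ∧ 0 < C ∧
      ∀ s : ℝ, 0 < s → s ≤ 1 → ∀ v ∈ Submodule.span ℝ (Set.range γ),
        Summable (fun n : Fin m → ℤ => Real.exp (-s * ‖∑ k, (n k : ℝ) • γ k + v‖ ^ 2)) ∧
        |∑' n : Fin m → ℤ, Real.exp (-s * ‖∑ k, (n k : ℝ) • γ k + v‖ ^ 2)
            - κ * (Real.sqrt s)⁻¹ ^ m|
          ≤ C * Real.exp (-c / s) * (Real.sqrt s)⁻¹ ^ m

/-- **JOB INDEP.** A subgroup of `(𝓞 K)^F` has a `ℤ`-basis that is `ℝ`-independent in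
`(mixedSpace K)^F`.

Proof.  `F → 𝓞 K` is free of finite rank over `ℤ`, so `N` has a finite basis
(`Submodule.basisOfPid`).  `ℤ`-independent vectors of a lattice whose basis is `ℝ`-independent
(`mixedEmbedding.latticeBasis`, coordinatewise) are `ℝ`-independent: `ℤ`-independent integer vectors
are `ℚ`-independent, and rational vectors that are `ℚ`-independent are `ℝ`-independent (a nonzero minor,
or a `ℚ`-basis of the span of the real coefficients, or flatness of `ℝ` over `ℤ`, or the discreteness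
lemmas of `ZLattice`). -/
def S_INDEP : Prop :=
  ∀ (K : Type) [Field K] [NumberField K] (F : Type) [Fintype F] (N : Submodule ℤ (F → 𝓞 K)),
    ∃ (m : ℕ) (b : Module.Basis (Fin m) ℤ N),
      LinearIndependent ℝ (fun (k : Fin m) (l : F) => mixedEmbedding K (((b k : F → 𝓞 K) l : 𝓞 K) : K))

/-- **JOB SPAN.** The real kernel of `z ↦ ∑ ζ_l z_l` is spanned by its integral points.

Proof.  Let `ζ r ≠ 0` and `∑ ζ_l z_l = 0`.  Then `z = ∑_{l≠r} (z_l/ζ_r) (ζ_r e_l - ζ_l e_r)` (the inverse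
of `mixedEmbedding K (ζ r)` is `mixedEmbedding K (ζ r)⁻¹`), and `z_l/ζ_r = ∑_k ρ_{l,k} b_k` with real
`ρ_{l,k}` in the lattice basis, so `z = ∑_{l,k} ρ_{l,k} b_k (ζ_r e_l - ζ_l e_r)`, an `ℝ`-combination of
integral points of the kernel. -/
def S_SPAN : Prop :=
  ∀ (K : Type) [Field K] [NumberField K] (F : Type) [Fintype F] (ζ : F → 𝓞 K), (∃ l, ζ l ≠ 0) →
    ∀ z : F → mixedEmbedding.mixedSpace K, ∑ l, mixedEmbedding K (ζ l : K) * z l = 0 →
      z ∈ Submodule.span ℝ {x : F → mixedEmbedding.mixedSpace K |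
        ∃ y : F → 𝓞 K, ∑ l, ζ l * y l = 0 ∧ x = fun l => mixedEmbedding K (y l : K)}

/-- **JOB FIB.** The fibre sums of the discrete Gaussian: `exp(-s N(t))` up to a factor `A(s)` that does
not depend on `t` and a relative error `C exp(-c/s)`.

Proof.  Let `V = EuclideanSpace ℂ (F × InfinitePlace K)` (a real inner product space) and
`J : (F → mixedSpace K) → V` the injective `ℝ`-linear map whose `(l,w)` component is (component of `z_l`
at `w`, in `ℂ`) `/ √τ_{l,w}`; for `g : F → 𝓞 K` put `ι g = J (mixedEmbedding ∘ g)`; `‖ι g‖² = QF τ g`.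
Let `N = {y | ∑ ζ_l y_l = 0}`, `γ = J ∘ (basis of S_INDEP)`, `ℝ`-independent as `J` is injective.
Given `t ∈ span (range ζ)` choose `g⁰` with `∑ ζ_l g⁰_l = t`, and let `z_l ∈ mixedSpace K` have the
components `τ_{l,w} conj(ζ_l) t`.  Then `∑ ζ_l z_l = t` (this is `∑ τ |ζ|² = 1`), so
`mixed(g⁰) - z` is in the real kernel and by `S_SPAN` `v := J (mixed(g⁰) - z) ∈ span γ`.  For `y ∈ N`:
`‖ι(g⁰+y)‖² = NF t + ‖ι y + v‖²`, because for complex numbers with `∑ ζ_l x_l = t`, `∑ τ_l |ζ_l|² = 1`: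
`∑ |x_l|²/τ_l = |t|² + ∑ |x_l - τ_l conj(ζ_l) t|²/τ_l`.  The fibre is `g⁰ + N`, `N ≃ (Fin m → ℤ)`, so the
fibre sum is `exp(-s NF t)` times the theta sum of `S_THM`; `A = κ (√s)⁻¹^m`, `C = C_THM/κ`. -/
def S_FIB : Prop :=
  S_TH1 → S_THM → S_INDEP → S_SPAN →
  ∀ (K : Type) [Field K] [NumberField K] (F : Type) [Fintype F] (ζ : F → 𝓞 K)
    (τ : F → InfinitePlace K → ℝ), (∀ l w, 0 < τ l w) →
    (∀ w : InfinitePlace K, ∑ l, τ l w * (w (ζ l : K)) ^ 2 = 1) →
    ∃ c C : ℝ, 0 < c ∧ 0 < C ∧ ∀ s : ℝ, 0 < s → s ≤ 1 → ∃ A : ℝ, 0 < A ∧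
      ∀ t ∈ Ideal.span (Set.range ζ),
        Summable (fun g : {g : F → 𝓞 K // ∑ l, ζ l * g l = t} => Real.exp (-s * QF τ g.1)) ∧
        |∑' g : {g : F → 𝓞 K // ∑ l, ζ l * g l = t}, Real.exp (-s * QF τ g.1)
            - A * Real.exp (-s * NF t)|
          ≤ C * Real.exp (-c / s) * (A * Real.exp (-s * NF t))

/-- **JOB MASS.** Total mass of the discrete Gaussian is polynomial in `1/s`.

Proof.  As in FIB with `N = ⊤`, `v = 0`: the sum is `κ s^{-m/2} (1 + O(C exp(-c/s)))`. -/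
def S_MASS : Prop :=
  S_TH1 → S_THM → S_INDEP →
  ∀ (K : Type) [Field K] [NumberField K] (F : Type) [Fintype F]
    (τ : F → InfinitePlace K → ℝ), (∀ l w, 0 < τ l w) →
    ∃ (C : ℝ) (B : ℕ), 0 < C ∧ ∀ s : ℝ, 0 < s → s ≤ 1 →
      Summable (fun g : F → 𝓞 K => Real.exp (-s * QF τ g)) ∧
      ∑' g : F → 𝓞 K, Real.exp (-s * QF τ g) ≤ C * (s⁻¹) ^ B

/-- **JOB GAU.** Truncated discrete Gaussians have almost equal marginals.

Proof.  Let `W(g) = exp(-s Q(g))`, `Q = QF τ`, `Z(s) = ∑ W`, and `μ = W` on the finite set `Q(g) ≤ 1/s²`,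
`0` elsewhere (finite because `W ≥ exp(-1/s)` there and `W` is summable).  For `g ∈ S` and `s ≤ s₀(S)`:
`Q(g) ≤ 1/s²` and `s Q(g) ≤ log 2`.  On the support `w(g_l)² ≤ τ_{l,w}/s²`, so `ht (X_i) ≤ C/s`.
Let `M_i(t)` be the full fibre sums.  By `S_FIB` for every `i` (with the common ideal `I`):
`|M_i(t) - A_i E(t)| ≤ C e^{-c/s} A_i E(t)`, `E(t) = exp(-s NF t)`, for `t ∈ I` (`M_i(t) = 0` for
`t ∉ I`).  Let `Θ = ∑_{t∈I} E(t)` and `C e^{-c/s} ≤ 1/2`: summing over `t`, `A_i Θ ≤ 2 Z(s)` and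
`|A_i - A_j| Θ ≤ C e^{-c/s} (A_i + A_j) Θ ≤ 4 C e^{-c/s} Z(s)` because all `M_i` have the same total
mass `Z(s)`; so `∑_t |M_i - M_j| ≤ 8 C e^{-c/s} Z(s)`.  Truncation: `∑_t (M_i - m_i) = ∑_{Q > 1/s²} W ≤
exp(-1/(2s)) Z(s/2)`.  With `S_MASS` this is `≤ C' s^{-B} exp(-c'/s)`. -/
def S_GAU : Prop :=
  S_TH1 → S_THM → S_INDEP → S_SPAN → S_FIB → S_MASS →
  ∀ (K : Type) [Field K] [NumberField K] (n : ℕ) (F : Type) [Fintype F] (ζ : F → Fin n → 𝓞 K)
    (τ : F → InfinitePlace K → ℝ) (I : Ideal (𝓞 K)), (∀ l w, 0 < τ l w) →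
    (∀ i, ∀ w : InfinitePlace K, ∑ l, τ l w * (w (ζ l i : K)) ^ 2 = 1) →
    (∀ i, Ideal.span (Set.range (fun l => ζ l i)) = I) →
    ∃ (c C : ℝ) (B : ℕ), 0 < c ∧ 0 < C ∧ ∀ S : Finset (F → 𝓞 K), ∃ s₀ : ℝ, 0 < s₀ ∧
      ∀ s : ℝ, 0 < s → s ≤ s₀ → ∃ μ : (F → 𝓞 K) →₀ ℝ, (∀ g, 0 ≤ μ g) ∧
        (∀ g ∈ S, 1 / 2 ≤ μ g) ∧
        (∀ g ∈ μ.support, ∀ i, ht (XX ζ g i) ≤ C / s) ∧
        ∀ i j, TV (μ.mapDomain (fun g => XX ζ g i)) (μ.mapDomain (fun g => XX ζ g j))
          ≤ C * (s⁻¹) ^ B * Real.exp (-c / s)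

/-- **JOB PAR.** Choice of the parameter.

Proof.  With `y = ρ^{-k} → ∞` we have `s = (C/C₀)/y → 0` and `n^{2k} s^{-B} exp(-c/s)` is bounded by a
power of `y` (choose `p ∈ ℕ` with `n² ρ^p ≤ 1`, so `n^{2k} ≤ y^p`) times `exp(-(c C₀/C) y)`, which tends
to `0`. -/
def S_PAR : Prop :=
  ∀ (ρ C₀ C c ε s₀ : ℝ) (n B : ℕ), 0 < ρ → ρ < 1 → 0 < C₀ → 0 < C → 0 < c → 0 < ε → 0 < s₀ →
    ∃ k : ℕ, C * ρ ^ k / C₀ ≤ s₀ ∧
      (n : ℝ) ^ (2 * k) * (C * ((C * ρ ^ k / C₀)⁻¹) ^ B * Real.exp (-c / (C * ρ ^ k / C₀))) ≤ ε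

/-- **JOB FBALL.** Finiteness of balls.  Proof.  `NumberField.Embeddings.finite_of_norm_le`. -/
def S_FBALL : Prop :=
  ∀ (K : Type) [Field K] [NumberField K] (C : ℝ), {t : 𝓞 K | ht t ≤ C}.Finite

end Q247.SY
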