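import Pool.Agent.Q247.SY.Stm

set_option autoImplicit false
open scoped NumberField
open NumberField

namespace Q247.SY

theorem hv_mem {K : Type} [Field K] [NumberField K] {n : ℕ} (a : Fin n → 𝓞 K) (j k i : Fin n) :
    hv a j k i ∈ Ideal.span (Set.range a) := by
  unfold hv
  apply Ideal.sub_mem
  · split_ifs
    · exact Ideal.subset_span ⟨k, rfl⟩
    · exact Ideal.zero_mem _
  · split_ifs
    · exact Ideal.subset_span ⟨j, rfl⟩
    · exact Ideal.zero_mem _

theorem syz_mem {K : Type} [Field K] [NumberField K] {n : ℕ} {a : Fin n → 𝓞 K} {x : Fin n → 𝓞 K}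
    (h : IsSyz a x) (i : Fin n) : x i ∈ Ideal.span (Set.range a) := by
  obtain ⟨s, hs⟩ := h
  rw [hs i]
  exact Ideal.sum_mem _ fun j _ => Ideal.sum_mem _ fun k _ => Ideal.mul_mem_left _ _ (hv_mem a j k i)

theorem hv_rel {R : Type} [CommRing R] {n : ℕ} (a : Fin n → R) (j k : Fin n) :
    ∑ i, a i * hv a j k i = 0 := by
  unfold hv
  simp [mul_sub, Finset.sum_sub_distrib, mul_comm]

theorem syz_rel {R : Type} [CommRing R] {n : ℕ} {a : Fin n → R} {x : Fin n → R}
    (h : IsSyz a x) : ∑ i, a i * x i = 0 := by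
  obtain ⟨s, hs⟩ := h
  have : ∀ i, a i * x i = ∑ j, ∑ k, s j k * (a i * hv a j k i) := by
    intro i
    rw [hs i, Finset.mul_sum]
    refine Finset.sum_congr rfl fun j _ => ?_
    rw [Finset.mul_sum]
    refine Finset.sum_congr rfl fun k _ => ?_
    ring
  simp_rw [this]
  rw [Finset.sum_comm]
  refine Finset.sum_eq_zero fun j _ => ?_
  rw [Finset.sum_comm]
  refine Finset.sum_eq_zero fun k _ => ?_
  rw [← Finset.mul_sum, hv_rel, mul_zero]

/-- syzygies are parametrised -/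
theorem syz_param {K : Type} [Field K] [NumberField K] {n : ℕ} {a : Fin n → 𝓞 K} {F : Type}
    [Fintype F] {ζ : F → Fin n → 𝓞 K} (hh : ∀ j k, ∃ l, ζ l = hv a j k) {x : Fin n → 𝓞 K}
    (h : IsSyz a x) : ∃ g : F → 𝓞 K, ∀ i, XX ζ g i = x i := by
  classical
  obtain ⟨s, hs⟩ := h
  choose f hf using hh
  refine ⟨fun l => ∑ j, ∑ k, if f j k = l then s j k else 0, fun i => ?_⟩
  rw [hs i]
  unfold XX
  simp_rw [Finset.mul_sum]
  rw [Finset.sum_comm]
  refine Finset.sum_congr rfl fun j _ => ?_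
  rw [Finset.sum_comm]
  refine Finset.sum_congr rfl fun k _ => ?_
  rw [Finset.sum_eq_single (f j k)]
  · rw [if_pos rfl, hf j k, mul_comm]
  · intro l _ hl
    rw [if_neg (Ne.symm hl), mul_zero]
  · intro h
    exact absurd (Finset.mem_univ _) h

theorem permSol_of
    (hRAT : S_RAT) (hABS : S_ABS) (hROUND : S_ROUND) (hPUSH : S_PUSH) (hPOLY : S_POLY)
    (hPERT : S_PERT) (hAPX : S_APX) (hVAR : S_VAR) (hTH1 : S_TH1) (hTHM : S_THM)
    (hINDEP : S_INDEP) (hSPAN : S_SPAN) (hFIB : S_FIB) (hMASS : S_MASS) (hGAU : S_GAU)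
    (hPAR : S_PAR) (hFB : S_FBALL)
    (K : Type) [Field K] [NumberField K] (n : ℕ) (hn : 0 < n) (a : Fin n → 𝓞 K)
    (hS : Strong a) (hL : LocGen a) : PermSol a := by
  obtain ⟨F, instF, ζ, τ, hsyz, hhv, hτ, hvar⟩ := hVAR hROUND hPOLY hPERT hAPX K n a hS
  letI := instF
  -- the common ideal
  have hI : ∀ i, Ideal.span (Set.range (fun l => ζ l i)) = Ideal.span (Set.range a) := by
    intro i
    apply le_antisymm
    · rw [Ideal.span_le]
      rintro _ ⟨l, rfl⟩
      exact syz_mem (hsyz l) i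
    · have hk : ∀ k, k ≠ i → a k ∈ Ideal.span (Set.range (fun l => ζ l i)) := by
        intro k hki
        obtain ⟨l, hl⟩ := hhv i k
        have : ζ l i = a k := by
          rw [hl]
          unfold hv
          rw [if_pos rfl, if_neg (Ne.symm hki), sub_zero]
        rw [← this]
        exact Ideal.subset_span ⟨l, rfl⟩
      rw [Ideal.span_le]
      rintro _ ⟨k, rfl⟩
      by_cases hki : k = i
      · subst hki
        have := hL k
        refine (Ideal.span_le.mpr ?_ : Ideal.span (a '' {j | j ≠ k}) ≤ _) this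
        rintro _ ⟨j, hj, rfl⟩
        exact hk j hj
      · exact hk k hki
  obtain ⟨ρ₁, C₁, hρ0, hρ1, hC₁, hpush⟩ := hPUSH hROUND K n a hS hL
  obtain ⟨c, C, B, hc, hC, hgau⟩ :=
    hGAU hTH1 hTHM hINDEP hSPAN hFIB hMASS K n F ζ τ _ hτ hvar hI
  -- parameters
  set ρ : ℝ := (1 + ρ₁) / 2 with hρdef
  have hρpos : 0 < ρ := by rw [hρdef]; linarith
  have hρlt : ρ < 1 := by rw [hρdef]; linarith
  set C₀ : ℝ := 2 * C₁ / (1 - ρ₁) with hC₀def
  have h1ρ : 0 < 1 - ρ₁ := by linarith
  have hC₀pos : 0 < C₀ := by rw [hC₀def]; positivity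
  -- a nonzero coordinate
  have hw : Nonempty (InfinitePlace K) := inferInstance
  obtain ⟨w₀⟩ := hw
  have hex : ∃ l, ζ l ⟨0, hn⟩ ≠ 0 := by
    by_contra hcon
    push Not at hcon
    have := hvar ⟨0, hn⟩ w₀
    simp [hcon] at this
  obtain ⟨l₀, hl₀⟩ := hex
  classical
  have habs := hABS (F → 𝓞 K) (𝓞 K) n (fun g i => XX ζ g i)
    (fun t => t ∈ Ideal.span (Set.range a)) ht ρ C₀ hρpos hρlt hC₀pos
    (by
      intro g i
      show XX ζ g i ∈ _
      unfold XX
      exact Ideal.sum_mem _ fun l _ => Ideal.mul_mem_right _ _ (syz_mem (hsyz l) i))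
    ((hFB K C₀).subset fun t ht => ht.2)
    (by
      intro i t ht hlt
      obtain ⟨x, hx, hxi, hxj⟩ := hpush i t ht
      obtain ⟨g, hg⟩ := syz_param hhv hx
      refine ⟨g, by rw [hg i, hxi], fun j hj => ?_⟩
      show Q247.SY.ht (XX ζ g j) ≤ _
      rw [hg j]
      refine (hxj j hj).trans ?_
      have : C₁ ≤ (1 - ρ₁) / 2 * Q247.SY.ht t := by
        have h2 : (1 - ρ₁) / 2 * C₀ = C₁ := by
          rw [hC₀def]; field_simp
        calc C₁ = (1 - ρ₁) / 2 * C₀ := h2.symm
          _ ≤ (1 - ρ₁) / 2 * Q247.SY.ht t := by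
              apply mul_le_mul_of_nonneg_left hlt.le; linarith
      rw [hρdef]
      nlinarith)
    (by
      intro S ε hε
      obtain ⟨s₀, hs₀, hs⟩ := hgau S
      obtain ⟨k, hk1, hk2⟩ := hPAR ρ C₀ C c ε s₀ n B hρpos hρlt hC₀pos hC hc hε hs₀
      have hspos : 0 < C * ρ ^ k / C₀ := by positivity
      obtain ⟨μ, hμ0, hμS, hμsupp, hμTV⟩ := hs _ hspos hk1
      refine ⟨k, μ, hμ0, hμS, ?_, ?_⟩
      · intro g hg i
        have h1 := hμsupp g hg i
        have h2 : C / (C * ρ ^ k / C₀) = C₀ / ρ ^ k := by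
          field_simp
        rw [h2] at h1
        calc ρ ^ k * Q247.SY.ht (XX ζ g i) ≤ ρ ^ k * (C₀ / ρ ^ k) := by
              apply mul_le_mul_of_nonneg_left h1; positivity
          _ = C₀ := by field_simp
      · intro i j
        refine le_trans ?_ hk2
        exact mul_le_mul_of_nonneg_left (hμTV i j) (by positivity))
    (Pi.single l₀ 1)
  obtain ⟨μ, hμ0, hμg, hμm⟩ := habs
  refine hRAT (𝓞 K) n a (F → 𝓞 K) (fun g i => XX ζ g i) ?_ μ hμ0 hμm
    ⟨Pi.single l₀ 1, ⟨0, hn⟩, hμg, ?_⟩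
  · intro g
    unfold XX
    have : ∀ i, a i * ∑ l, ζ l i * g l = ∑ l, g l * (a i * ζ l i) := by
      intro i
      rw [Finset.mul_sum]
      refine Finset.sum_congr rfl fun l _ => ?_
      ring
    simp_rw [this]
    rw [Finset.sum_comm]
    refine Finset.sum_eq_zero fun l _ => ?_
    rw [← Finset.mul_sum, syz_rel (hsyz l), mul_zero]
  · show XX ζ (Pi.single l₀ 1) ⟨0, hn⟩ ≠ 0
    unfold XX
    rw [Finset.sum_eq_single l₀]
    · simpa using hl₀
    · intro l _ hl
      simp [Pi.single_eq_of_ne hl]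
    · intro h
      exact absurd (Finset.mem_univ _) h

theorem final
    (hSN : S_SN) (hCONJ : S_CONJ) (hNECF : S_NECF) (hNECA : S_NECA) (hROU : S_ROU) (hLOC : S_LOC)
    (hRAT : S_RAT) (hABS : S_ABS) (hROUND : S_ROUND) (hPUSH : S_PUSH) (hPOLY : S_POLY)
    (hPERT : S_PERT) (hAPX : S_APX) (hVAR : S_VAR) (hTH1 : S_TH1) (hTHM : S_THM)
    (hINDEP : S_INDEP) (hSPAN : S_SPAN) (hFIB : S_FIB) (hMASS : S_MASS) (hGAU : S_GAU)
    (hPAR : S_PAR) (hFB : S_FBALL)
    (K : Type) [Field K] [NumberField K] (n : ℕ) (a : Fin n → 𝓞 K) :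
    Conj a ↔ ((Strong a ∧ NonArch a) ∨ Rou a) := by
  constructor
  · intro h
    rcases hNECA K n a h with hS | hR
    · left
      refine ⟨hS, ?_⟩
      rcases Nat.lt_or_ge n 2 with hn | hn
      · intro v i
        exfalso
        have hn1 : n = 1 := by have := i.2; omega
        subst hn1
        have w : InfinitePlace K := Classical.choice inferInstance
        have := hS w i
        have he : Finset.univ.erase i = (∅ : Finset (Fin 1)) := by
          ext j; simp [Subsingleton.elim j i]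
        rw [he, Finset.sum_empty] at this
        exact absurd this (not_lt.mpr (apply_nonneg _ _))
      · exact hNECF K n a hn h
    · exact Or.inr hR
  · rintro (⟨hS, hN⟩ | hR)
    · rcases Nat.eq_zero_or_pos n with hn | hn
      · subst hn
        exact ⟨fun i => i.elim0, fun i => i.elim0, fun i => i.elim0, by simp⟩
      · exact hCONJ hSN K n a
          (permSol_of hRAT hABS hROUND hPUSH hPOLY hPERT hAPX hVAR hTH1 hTHM hINDEP hSPAN hFIB
            hMASS hGAU hPAR hFB K n hn a hS (hLOC K n a hN))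
    · exact hROU K n a hR

end Q247.SY
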